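import Pool.Agent.Run7.h914.IFm.Bez
import Pool.Agent.Run7.h914.IFm.T6

/-!
# The gcd recursion with `n ^ ℓ - 1`: the next zero after a zero at a linear form in the coordinates of points modulo primes

After a zero at `n` the value is `(n + 1) ^ ℓ - 1`, so that the next zero is at most `(n + 1) ^ ℓ + n`; the zeros of the
recursion of the problem are the orbit of `2` under the map `n ↦ n'` (next zero), which is defined for all `n`.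

Let `p` be a large prime, `0 < δ ≤ 1`, and consider either
(a) the points `(x, y)` of ANY absolutely irreducible plane curve modulo `p`, not a line, of degree at most
`p ^ (δ / 50)`, in a box with sides between `p ^ δ` and `p` and of area at least `p ^ (3 / 2 + δ)`, and a linear form
`n = c₁ x + c₂ y + c₀` with coprime coefficients `c₁, c₂` of absolute value at most `p ^ (δ / 20)`, or
(b) the solutions of a system `P_1j(x_1) + … + P_Nj(x_N) ≡ b_j` (`j ≤ k`) of Waring-Vinogradov type modulo `p`, `N > 2 k`,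
in a box of volume at least `p ^ (N / 2 + k + δ)`, and a primitive linear form `n` of the solutions.
Then the proportion of the points with `n > 0` for which the next zero `n'` satisfies `n' > (n + 1) ^ ℓ + n - H` is
(1) at most `C(ℓ, H) / log ² p` for every prime `ℓ` and every `H`, and
(2) for `ℓ = 2` at most `C(ε) H ^ (1 + ε) / log ² p`, uniformly in `H ≥ 1`.

Proof.  The twisted sums `∑ e(α n)` over the points in the box are small unless `α` is close to an integer: completion with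
the twists (library `IFm.Tw`) and Weil's bound (proved in Lean); hence `n` is equidistributed in the residue classes of
all moduli up to a power of `p`.  Then the sieve of helper844 (see `NextZero`).
-/

set_option autoImplicit false

open Finset Filter Polynomial

namespace Pool.Agent.Results.MP_e7655a_nt.CurvesAndSystemsModP

/-- `n > 0` and there is a sequence `b` with `b(n) = 0` which satisfies the recursion of the problem,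
`b(k) = |b(k-1) - gcd(b(k-1), k ^ ℓ - 1)|`, for `k > n`, and whose next zero `n' > n` satisfies `n' > (n + 1) ^ ℓ + n - H`. -/
def Late (ℓ H : ℕ) (n : ℤ) : Prop := 0 < n ∧ ∃ b : ℕ → ℤ, ∃ n' : ℕ,
  (∀ k : ℕ, n.toNat < k → b k = |b (k - 1) - ((Int.gcd (b (k - 1)) ((k : ℤ) ^ ℓ - 1) : ℕ) : ℤ)|) ∧
  b n.toNat = 0 ∧ n.toNat < n' ∧ b n' = 0 ∧ (∀ k : ℕ, n.toNat < k → k < n' → b k ≠ 0) ∧
  (n.toNat + 1) ^ ℓ + n.toNat < n' + H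

/-- The polynomial `F`, a polynomial in `y` whose coefficients are polynomials in `x`, is irreducible over
the algebraic closure of the field with `p` elements. -/
def AbsIrreducible (p : ℕ) [Fact p.Prime] (F : (ZMod p)[X][X]) : Prop :=
  Irreducible (F.map (mapRingHom (algebraMap (ZMod p) (AlgebraicClosure (ZMod p)))))

/-- The total degree of `F` is at most `d`. -/
def DegreeLE {p : ℕ} (F : (ZMod p)[X][X]) (d : ℕ) : Prop :=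
  ∀ i j, d < i + j → (F.coeff i).coeff j = 0

/-- The integer points of the box `(M₁, M₁ + L₁] × (M₂, M₂ + L₂]` on the curve `F = 0` modulo `p`. -/
def CurvePoints {p : ℕ} (F : (ZMod p)[X][X]) (M₁ M₂ : ℤ) (L₁ L₂ : ℕ) : Set (ℤ × ℤ) :=
  {z | (M₁ < z.1 ∧ z.1 ≤ M₁ + L₁) ∧ (M₂ < z.2 ∧ z.2 ≤ M₂ + L₂) ∧ F.evalEval (z.1 : ZMod p) (z.2 : ZMod p) = 0}

/-- The integer points of the box `∏ (M_i, M_i + L_i]` which are solutions modulo `p` of the system `∑ᵢ P_ij(z_i) = b_j`. -/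
def Solutions {p n k : ℕ} (P : Fin n → Fin k → (ZMod p)[X]) (b : Fin k → ZMod p) (M : Fin n → ℤ) (L : Fin n → ℕ) :
    Set (Fin n → ℤ) :=
  {z | (∀ i, M i < z i ∧ z i ≤ M i + L i) ∧ ∀ j, ∑ i, (P i j).eval (z i : ZMod p) = b j}

/-- There are integers `u_j` with `∑ u_j c_j = 1` and `∑ |u_j| ≤ B`. -/
def Primitive {n : ℕ} (B : ℝ) (c : Fin n → ℤ) : Prop :=
  ∃ u : Fin n → ℤ, ∑ j, u j * c j = 1 ∧ (∑ j, |(u j : ℝ)|) ≤ B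

lemma bd1 (ℓ : ℕ) (hℓ : ℓ.Prime) (H : ℕ) : Run7.h914.IFm.FamBd (fun _ => Late ℓ H) (fun _ => 1) 2 := by
  classical
  obtain ⟨C, hC, T₀, h1⟩ := Run7.h914.IFm.RP.fam_p ℓ hℓ H
  refine ⟨max C 1, le_max_right _ _, T₀, fun T hT ι s v hv _ _ => ?_⟩
  have h2 := h1 T hT ι s v hv
  rw [mul_one]
  have h3 : (0 : ℝ) ≤ (s.card : ℝ) / Real.log T ^ 2 := by positivity
  refine le_trans ?_ (h2.trans (mul_le_mul_of_nonneg_right (le_max_left C 1) h3))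
  apply Nat.cast_le.2
  apply card_le_card
  intro i hi
  rw [mem_filter] at hi ⊢
  exact ⟨hi.1, hi.2.1, hi.2.2⟩

lemma bd2 (ε : ℝ) (hε : 0 < ε) : Run7.h914.IFm.FamBd (Late 2) (fun H : ℕ => (H : ℝ) ^ (1 + ε)) 2 := by
  classical
  obtain ⟨C, hC, T₀, h1⟩ := Run7.h914.IFm.RP.fam3 ε hε
  refine ⟨C, hC, T₀, fun T hT ι s v hv H hH => ?_⟩
  refine le_trans ?_ (h1 T hT ι s v hv H hH)
  apply Nat.cast_le.2
  apply card_le_card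
  intro i hi
  rw [mem_filter] at hi ⊢
  exact ⟨hi.1, hi.2.1, Run7.h914.IFm.RP.Dft_two H _ hi.2.2⟩

/-- the points of curves -/
theorem curves (Bad : ℕ → ℤ → Prop) (g : ℕ → ℝ) (hB : Run7.h914.IFm.FamBd Bad g 2) (δ : ℝ) (hδ : 0 < δ) (hδ1 : δ ≤ 1) :
    ∃ K : ℝ, 0 < K ∧ ∃ p₀ : ℕ, ∀ (p : ℕ) [Fact p.Prime], p₀ ≤ p →
      ∀ (d : ℕ) (F : (ZMod p)[X][X]), (d : ℝ) ≤ (p : ℝ) ^ (δ / 50) → DegreeLE F d → ¬ DegreeLE F 1 →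
        AbsIrreducible p F →
      ∀ (M₁ M₂ : ℤ) (L₁ L₂ : ℕ), (p : ℝ) ^ δ ≤ L₁ → L₁ ≤ p → (p : ℝ) ^ δ ≤ L₂ → L₂ ≤ p →
        (p : ℝ) ^ (3 / 2 + δ) ≤ L₁ * L₂ →
      ∀ (c₁ c₂ c₀ : ℤ), IsCoprime c₁ c₂ → |(c₁ : ℝ)| ≤ (p : ℝ) ^ (δ / 20) → |(c₂ : ℝ)| ≤ (p : ℝ) ^ (δ / 20) →
      ∀ H : ℕ, 1 ≤ H →
        (Set.ncard {z ∈ CurvePoints F M₁ M₂ L₁ L₂ | Bad H (c₁ * z.1 + c₂ * z.2 + c₀)} : ℝ) ≤
          K * g H * (Set.ncard (CurvePoints F M₁ M₂ L₁ L₂) / Real.log p ^ 2) := by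
  obtain ⟨K, hK, p₀, h⟩ := Run7.h914.IFm.curve_bad2 Bad g 2 hB δ hδ hδ1
  refine ⟨K, hK, p₀, ?_⟩
  intro p _ hp d F hd hF hF1 hirr M₁ M₂ L₁ L₂ l1 l2 l3 l4 hV c₁ c₂ c₀ hco hc1 hc2 H hH
  have hex : ∃ i j, 2 ≤ i + j ∧ (F.coeff i).coeff j ≠ 0 := by
    by_contra hc
    push Not at hc
    exact hF1 fun i j hij => hc i j (by omega)
  have key := h p hp d F hd hF hex hirr M₁ M₂ L₁ L₂ l1 l2 l3 l4 hV c₁ c₂ c₀ hco hc1 hc2 H hH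
  have e : {z ∈ CurvePoints F M₁ M₂ L₁ L₂ | Bad H (c₁ * z.1 + c₂ * z.2 + c₀)} =
      {z : ℤ × ℤ | (M₁ < z.1 ∧ z.1 ≤ M₁ + L₁) ∧ (M₂ < z.2 ∧ z.2 ≤ M₂ + L₂) ∧
        evalEval (z.1 : ZMod p) (z.2 : ZMod p) F = 0 ∧ Bad H (c₁ * z.1 + c₂ * z.2 + c₀)} := by
    ext z
    simp only [CurvePoints, Set.mem_setOf_eq, and_assoc]
  rw [e]
  exact key

/-- the solutions of systems -/
theorem systems (Bad : ℕ → ℤ → Prop) (g : ℕ → ℝ) (hB : Run7.h914.IFm.FamBd Bad g 2) (n k : ℕ) (hn : 2 * k < n)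
    (δ : ℝ) (hδ : 0 < δ) (hδ1 : δ ≤ 1) :
    ∃ K : ℝ, 0 < K ∧ ∃ p₀ : ℕ, ∀ (p : ℕ) [Fact p.Prime], p₀ ≤ p →
      ∀ (d : ℕ) (P : Fin n → Fin k → (ZMod p)[X]) (b : Fin k → ZMod p), (d : ℝ) ≤ (p : ℝ) ^ (δ / (50 * n)) →
      (∀ i j, (P i j).natDegree ≤ d) →
      (∀ i, ∀ (t : Fin k → ZMod p) (a c : ZMod p), ∑ j, C (t j) * P i j = C a * X + C c → t = 0) →
      ∀ (M : Fin n → ℤ) (L : Fin n → ℕ), (∀ j, (p : ℝ) ^ δ ≤ L j ∧ L j ≤ p) →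
        (p : ℝ) ^ ((n : ℝ) / 2 + k + δ) ≤ ∏ j, (L j : ℝ) →
      ∀ (c : Fin n → ℤ) (c₀ : ℤ), Primitive ((p : ℝ) ^ (δ / 16)) c → ∀ H : ℕ, 1 ≤ H →
        (Set.ncard {z ∈ Solutions P b M L | Bad H (∑ j, c j * z j + c₀)} : ℝ) ≤
          K * g H * (Set.ncard (Solutions P b M L) / Real.log p ^ 2) := by
  obtain ⟨K, hK, p₀, h⟩ := Run7.h914.IFm.sys_bad Bad g 2 hB n k hn δ hδ hδ1
  refine ⟨K, hK, p₀, ?_⟩
  intro p _ hp d P b hd hP hind M L hL hV c c₀ hc H hH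
  obtain ⟨u, hu, hu2⟩ := hc
  have key := h p hp d P b hd hP hind M L hL hV c u c₀ hu hu2 H hH
  have e : {z ∈ Solutions P b M L | Bad H (∑ j, c j * z j + c₀)} =
      {z : Fin n → ℤ | (∀ j, M j < z j ∧ z j ≤ M j + L j) ∧
        (∀ j, ∑ i, (P i j).eval (z i : ZMod p) = b j) ∧ Bad H (∑ j, c j * z j + c₀)} := by
    ext z
    simp only [Solutions, Set.mem_setOf_eq, and_assoc]
  rw [e]
  exact key

/-- **The next zero after a zero at linear forms in the coordinates of the points of plane curves and of the solutions of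
systems modulo primes.** -/
theorem result (δ : ℝ) (hδ : 0 < δ) (hδ1 : δ ≤ 1) :
    (∀ ℓ : ℕ, ℓ.Prime → ∀ H : ℕ, (∃ K : ℝ, 0 < K ∧ ∃ p₀ : ℕ, ∀ (p : ℕ) [Fact p.Prime], p₀ ≤ p →
      ∀ (d : ℕ) (F : (ZMod p)[X][X]), (d : ℝ) ≤ (p : ℝ) ^ (δ / 50) → DegreeLE F d → ¬ DegreeLE F 1 →
        AbsIrreducible p F →
      ∀ (M₁ M₂ : ℤ) (L₁ L₂ : ℕ), (p : ℝ) ^ δ ≤ L₁ → L₁ ≤ p → (p : ℝ) ^ δ ≤ L₂ → L₂ ≤ p →
        (p : ℝ) ^ (3 / 2 + δ) ≤ L₁ * L₂ →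
      ∀ (c₁ c₂ c₀ : ℤ), IsCoprime c₁ c₂ → |(c₁ : ℝ)| ≤ (p : ℝ) ^ (δ / 20) → |(c₂ : ℝ)| ≤ (p : ℝ) ^ (δ / 20) →
        (Set.ncard {z ∈ CurvePoints F M₁ M₂ L₁ L₂ | Late ℓ H (c₁ * z.1 + c₂ * z.2 + c₀)} : ℝ) ≤
          K * (Set.ncard (CurvePoints F M₁ M₂ L₁ L₂) / Real.log p ^ 2)) ∧
    (∀ n k : ℕ, 2 * k < n → ∃ K : ℝ, 0 < K ∧ ∃ p₀ : ℕ, ∀ (p : ℕ) [Fact p.Prime], p₀ ≤ p →
      ∀ (d : ℕ) (P : Fin n → Fin k → (ZMod p)[X]) (b : Fin k → ZMod p), (d : ℝ) ≤ (p : ℝ) ^ (δ / (50 * n)) →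
      (∀ i j, (P i j).natDegree ≤ d) →
      (∀ i, ∀ (t : Fin k → ZMod p) (a c : ZMod p), ∑ j, C (t j) * P i j = C a * X + C c → t = 0) →
      ∀ (M : Fin n → ℤ) (L : Fin n → ℕ), (∀ j, (p : ℝ) ^ δ ≤ L j ∧ L j ≤ p) →
        (p : ℝ) ^ ((n : ℝ) / 2 + k + δ) ≤ ∏ j, (L j : ℝ) →
      ∀ (c : Fin n → ℤ) (c₀ : ℤ), Primitive ((p : ℝ) ^ (δ / 16)) c →
        (Set.ncard {z ∈ Solutions P b M L | Late ℓ H (∑ j, c j * z j + c₀)} : ℝ) ≤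
          K * (Set.ncard (Solutions P b M L) / Real.log p ^ 2))) ∧
    (∀ ε : ℝ, 0 < ε → (∃ K : ℝ, 0 < K ∧ ∃ p₀ : ℕ, ∀ (p : ℕ) [Fact p.Prime], p₀ ≤ p →
      ∀ (d : ℕ) (F : (ZMod p)[X][X]), (d : ℝ) ≤ (p : ℝ) ^ (δ / 50) → DegreeLE F d → ¬ DegreeLE F 1 →
        AbsIrreducible p F →
      ∀ (M₁ M₂ : ℤ) (L₁ L₂ : ℕ), (p : ℝ) ^ δ ≤ L₁ → L₁ ≤ p → (p : ℝ) ^ δ ≤ L₂ → L₂ ≤ p →
        (p : ℝ) ^ (3 / 2 + δ) ≤ L₁ * L₂ →
      ∀ (c₁ c₂ c₀ : ℤ), IsCoprime c₁ c₂ → |(c₁ : ℝ)| ≤ (p : ℝ) ^ (δ / 20) → |(c₂ : ℝ)| ≤ (p : ℝ) ^ (δ / 20) →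
      ∀ H : ℕ, 1 ≤ H →
        (Set.ncard {z ∈ CurvePoints F M₁ M₂ L₁ L₂ | Late 2 H (c₁ * z.1 + c₂ * z.2 + c₀)} : ℝ) ≤
          K * (H : ℝ) ^ (1 + ε) * (Set.ncard (CurvePoints F M₁ M₂ L₁ L₂) / Real.log p ^ 2)) ∧
    (∀ n k : ℕ, 2 * k < n → ∃ K : ℝ, 0 < K ∧ ∃ p₀ : ℕ, ∀ (p : ℕ) [Fact p.Prime], p₀ ≤ p →
      ∀ (d : ℕ) (P : Fin n → Fin k → (ZMod p)[X]) (b : Fin k → ZMod p), (d : ℝ) ≤ (p : ℝ) ^ (δ / (50 * n)) →
      (∀ i j, (P i j).natDegree ≤ d) →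
      (∀ i, ∀ (t : Fin k → ZMod p) (a c : ZMod p), ∑ j, C (t j) * P i j = C a * X + C c → t = 0) →
      ∀ (M : Fin n → ℤ) (L : Fin n → ℕ), (∀ j, (p : ℝ) ^ δ ≤ L j ∧ L j ≤ p) →
        (p : ℝ) ^ ((n : ℝ) / 2 + k + δ) ≤ ∏ j, (L j : ℝ) →
      ∀ (c : Fin n → ℤ) (c₀ : ℤ), Primitive ((p : ℝ) ^ (δ / 16)) c → ∀ H : ℕ, 1 ≤ H →
        (Set.ncard {z ∈ Solutions P b M L | Late 2 H (∑ j, c j * z j + c₀)} : ℝ) ≤
          K * (H : ℝ) ^ (1 + ε) * (Set.ncard (Solutions P b M L) / Real.log p ^ 2))) := by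
  refine ⟨fun ℓ hℓ H₀ => ⟨?_, fun n k hn => ?_⟩, fun ε hε => ⟨curves (Late 2) _ (bd2 ε hε) δ hδ hδ1,
    fun n k hn => systems (Late 2) _ (bd2 ε hε) n k hn δ hδ hδ1⟩⟩
  · obtain ⟨K, hK, p₀, h⟩ := curves (fun _ => Late ℓ H₀) (fun _ => 1) (bd1 ℓ hℓ H₀) δ hδ hδ1
    refine ⟨K, hK, p₀, ?_⟩
    intro p _ hp d F hd hF hF1 hirr M₁ M₂ L₁ L₂ l1 l2 l3 l4 hV c₁ c₂ c₀ hco hc1 hc2
    have key := h p hp d F hd hF hF1 hirr M₁ M₂ L₁ L₂ l1 l2 l3 l4 hV c₁ c₂ c₀ hco hc1 hc2 1 le_rfl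
    rw [mul_one] at key
    exact key
  · obtain ⟨K, hK, p₀, h⟩ := systems (fun _ => Late ℓ H₀) (fun _ => 1) (bd1 ℓ hℓ H₀) n k hn δ hδ hδ1
    refine ⟨K, hK, p₀, ?_⟩
    intro p _ hp d P b hd hP hind M L hL hV c c₀ hc
    have key := h p hp d P b hd hP hind M L hL hV c c₀ hc 1 le_rfl
    rw [mul_one] at key
    exact key

end Pool.Agent.Results.MP_e7655a_nt.CurvesAndSystemsModP
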