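import Pool.Agent.Run7.h844.RP.PwT6

/-!
# The gcd recursion with `n ^ p - 1`: the next zero after a zero at `n`, for almost all `n`

After a zero at `n` the value is `(n + 1) ^ p - 1`, and every step decreases it, so that the next zero `n'` is at most
`(n + 1) ^ p + n`. The zeros of `a_p` are the orbit of `2` under the map `n ↦ n'`, which is defined for all `n`. It is shown that
for every prime `p` the next zero is rarely close to this bound: for every `H`, the `n ≤ Y` with `n' > (n + 1) ^ p + n - H` are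
at most `C(p, H) Y / log ² Y` in number; for `p = 2` this is shown with the constant `C(ε) H ^ (1 + ε)`, uniformly in `H`, so that
`n' < n² + 3 n - log ^ (2 - ε) n` for almost all `n`.

Method. As in the starting result `LongDescent` (`Pool.Agent.H399R2`), a descent of almost maximal length forces
`(n' + 1) ^ p - 1 = n' q_p(n')` to have no small prime factors. With `h = (n + 1) ^ p + n - n' < H` the numbers `n'` and `q_p(n')` are
values at `n` of two coprime polynomials. An upper bound sieve (fundamental lemma of `Pool.Agent.Run7.h90.AP`) gives the bound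
`C Y / log ² Y` by the theorem of Mertens for the roots of irreducible polynomials modulo primes (`Pool.Agent.H474R2.GE`), for
every `h`, whether these polynomials are irreducible or not. For `p = 2` the polynomials are `n² + 3 n + 1 - h` and
`n² + 3 n + 3 - h`, and the uniformity in `h` follows from the theorem of Siegel and Walfisz for quadratic characters.
-/

set_option autoImplicit false

open Finset Filter

namespace Pool.Agent.Results.MP_e7655a_nt.NextZero

/-- There is a sequence `b` with `b(n) = 0` which satisfies the recursion of the problem,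
`b(k) = |b(k-1) - gcd(b(k-1), k ^ p - 1)|`, for `k > n`, and whose next zero `n' > n` satisfies `n' > (n + 1) ^ p + n - H`. -/
def Late (p H n : ℕ) : Prop := ∃ b : ℕ → ℤ, ∃ n' : ℕ,
  (∀ k : ℕ, n < k → b k = |b (k - 1) - ((Int.gcd (b (k - 1)) ((k : ℤ) ^ p - 1) : ℕ) : ℤ)|) ∧
  b n = 0 ∧ n < n' ∧ b n' = 0 ∧ (∀ k : ℕ, n < k → k < n' → b k ≠ 0) ∧ (n + 1) ^ p + n < n' + H

lemma small_bound (X : ℕ) (hX : 2 ≤ X) : 1 / 4 ≤ X / Real.log X ^ 2 := by
  have hX' : (2 : ℝ) ≤ X := by exact_mod_cast hX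
  have hl : 0 < Real.log X := Real.log_pos (by linarith)
  rw [div_le_div_iff₀ (by norm_num) (by positivity), one_mul]
  have h1 : Real.log X ≤ 2 * (X : ℝ) ^ (1 / 2 : ℝ) := by
    have h2 := Real.log_le_rpow_div (x := (X : ℝ)) (by linarith) (ε := 1 / 2) (by norm_num)
    have e : (X : ℝ) ^ (1 / 2 : ℝ) / (1 / 2) = 2 * (X : ℝ) ^ (1 / 2 : ℝ) := by ring
    rw [e] at h2
    exact h2
  calc Real.log X ^ 2 ≤ (2 * (X : ℝ) ^ (1 / 2 : ℝ)) ^ 2 := pow_le_pow_left₀ hl.le h1 2
    _ = 4 * ((X : ℝ) ^ (1 / 2 : ℝ)) ^ 2 := by ring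
    _ = 4 * (X : ℝ) := by
      rw [← Real.rpow_natCast, ← Real.rpow_mul (by linarith)]
      norm_num
    _ = (X : ℝ) * 4 := by ring

open Classical in
/-- from all large `Y` to all `Y ≥ 2` -/
lemma all_Y (P : ℕ → Prop) (K : ℝ) (hK : 1 ≤ K) (C : ℝ) (hC : 0 ≤ C) (X₀ Y : ℕ) (hY : 2 ≤ Y)
    (h : X₀ ≤ Y → (((Icc 1 Y).filter P).card : ℝ) ≤ C * K * (Y / Real.log Y ^ 2)) :
    (((Icc 1 Y).filter P).card : ℝ) ≤ (C + 4 * X₀) * K * (Y / Real.log Y ^ 2) := by
  have hsm := small_bound Y hY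
  have hX₀r : (0 : ℝ) ≤ X₀ := Nat.cast_nonneg _
  have hY0 : 0 ≤ (Y : ℝ) / Real.log Y ^ 2 := by linarith
  have hK0 : 0 ≤ K := by linarith
  by_cases hXX : X₀ ≤ Y
  · refine (h hXX).trans ?_
    have h4 : 0 ≤ 4 * X₀ * K * ((Y : ℝ) / Real.log Y ^ 2) := by positivity
    linarith
  · push Not at hXX
    have h1 : (((Icc 1 Y).filter P).card : ℝ) ≤ X₀ := by
      have : ((Icc 1 Y).filter P).card ≤ X₀ := by
        refine (card_filter_le _ _).trans ?_
        rw [Nat.card_Icc]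
        omega
      exact_mod_cast this
    refine h1.trans ?_
    have h2 : (X₀ : ℝ) ≤ 4 * X₀ * (Y / Real.log Y ^ 2) := by nlinarith
    have h3 : 4 * X₀ * ((Y : ℝ) / Real.log Y ^ 2) ≤ 4 * X₀ * K * (Y / Real.log Y ^ 2) := by
      apply mul_le_mul_of_nonneg_right _ hY0
      nlinarith
    have h4 : 0 ≤ C * K * (Y / Real.log Y ^ 2) := by positivity
    linarith

open Classical in
/-- For every prime `p` and every `H` there is `C` such that for all `Y ≥ 2` at most `C Y / log ² Y` of the `n ≤ Y` have the property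
that the next zero `n'` of the recursion after a zero at `n` satisfies `n' > (n + 1) ^ p + n - H` (the maximal possible value is
`(n + 1) ^ p + n`). For `p = 2` and every `ε > 0` there is `C` such that the bound `C H ^ (1 + ε) Y / log ² Y` holds for all `H ≥ 1`
and `Y ≥ 2`. -/
theorem result :
    (∀ p : ℕ, p.Prime → ∀ H : ℕ, ∃ C : ℝ, 0 < C ∧ ∀ Y : ℕ, 2 ≤ Y →
      (((Icc 1 Y).filter fun n : ℕ => Late p H n).card : ℝ) ≤ C * (Y / Real.log Y ^ 2)) ∧
    (∀ ε : ℝ, 0 < ε → ∃ C : ℝ, 0 < C ∧ ∀ Y : ℕ, 2 ≤ Y → ∀ H : ℕ, 1 ≤ H →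
      (((Icc 1 Y).filter fun n : ℕ => Late 2 H n).card : ℝ) ≤ C * (H : ℝ) ^ (1 + ε) * (Y / Real.log Y ^ 2)) := by
  constructor
  · intro p hp H
    obtain ⟨C, hC, T₀, h⟩ := Pool.Agent.Run7.h844.RP.fam_p p hp H
    obtain ⟨X₀, hX₀⟩ : ∃ X₀ : ℕ, X₀ = ⌈T₀⌉₊ := ⟨_, rfl⟩
    refine ⟨C + 4 * X₀, by positivity, fun Y hY => ?_⟩
    have h0 := all_Y (fun n : ℕ => Late p H n) 1 le_rfl C hC.le X₀ Y hY (by
      intro hXX
      have h1 := h Y ((Nat.le_ceil T₀).trans (by rw [← hX₀]; exact_mod_cast hXX)) ℕ (Icc 1 Y) (fun n : ℕ => (n : ℤ))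
        (Pool.Agent.Run7.h844.RP.IF_id Y (by omega))
      rw [Nat.card_Icc, Nat.add_sub_cancel] at h1
      rw [mul_one]
      refine le_trans ?_ h1
      apply Nat.cast_le.2
      apply card_le_card
      intro n hn
      rw [mem_filter] at hn ⊢
      rw [Int.toNat_natCast]
      have := (mem_Icc.1 hn.1).1
      exact ⟨hn.1, by omega, hn.2⟩)
    rwa [mul_one] at h0
  · intro ε hε
    obtain ⟨C, hC, T₀, h⟩ := Pool.Agent.Run7.h844.RP.fam3 ε hε
    obtain ⟨X₀, hX₀⟩ : ∃ X₀ : ℕ, X₀ = ⌈T₀⌉₊ := ⟨_, rfl⟩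
    refine ⟨C + 4 * X₀, by positivity, fun Y hY H hH => ?_⟩
    have hH1 : (1 : ℝ) ≤ H := by exact_mod_cast hH
    have hHε : 1 ≤ (H : ℝ) ^ (1 + ε) := Real.one_le_rpow hH1 (by linarith)
    refine all_Y (fun n : ℕ => Late 2 H n) ((H : ℝ) ^ (1 + ε)) hHε C (by linarith) X₀ Y hY (fun hXX => ?_)
    have h1 := h Y ((Nat.le_ceil T₀).trans (by rw [← hX₀]; exact_mod_cast hXX)) ℕ (Icc 1 Y) (fun n : ℕ => (n : ℤ))
      (Pool.Agent.Run7.h844.RP.IF_id Y (by omega)) H hH
    rw [Nat.card_Icc, Nat.add_sub_cancel] at h1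
    refine le_trans ?_ h1
    apply Nat.cast_le.2
    apply card_le_card
    intro n hn
    rw [mem_filter] at hn ⊢
    rw [Int.toNat_natCast]
    have := (mem_Icc.1 hn.1).1
    exact ⟨hn.1, by omega, Pool.Agent.Run7.h844.RP.Dft_two H n hn.2⟩

end Pool.Agent.Results.MP_e7655a_nt.NextZero
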