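import Pool.Agent.Run7.h672.WT.W
import Pool.Agent.Run7.h672.WT.X
import Pool.Agent.Run7.h844.RP.PwT6

/-!
# The gcd recursion with `n ^ p - 1`: the next zero after a zero at `n`, for random `n` written by independent random words

After a zero at `n` the value is `(n + 1) ^ p - 1`, and every step decreases it, so that the next zero `n'` is at most
`(n + 1) ^ p + n`. It is shown that the next zero is rarely close to this bound for random integers `n = c + κ v`, `v` written by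
independent random words. The definitions `len`, `Words`, `cat`, `noRest`, `cutWord`, `WordLaw` are in
`Pool.Agent.Run7.h672.CC.Defs`.

Method: a descent of almost maximal length forces `(n' + 1) ^ p - 1 = n' q_p(n')` to have no small prime factors (`NextZero`,
helper844, from the starting result `LongDescent`). The exponential sums of a random integer written by random words are small at
all the fractions with denominators up to `exp (δ √k)` without small prime factors (`Pool.Agent.Run7.h672.CC`, by a strong renewal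
theorem and the exchange of two words which do not commute), hence the fundamental lemma of the sieve applies with all the primes
up to `exp (δ √k)` (`Pool.Agent.Run7.h672.WT`). The sieve products are bounded by the lemmas `QP_sum` and `Q3_sum` of helper844
(theorem of Mertens for the roots of irreducible polynomials modulo primes, theorem of Siegel and Walfisz).
-/

set_option autoImplicit false

open Finset
open Pool.Agent.Run7.h672.CC
open Pool.Agent.Run7.h672.WT
open Pool.Agent.Run7.h844.RP (Q3 Q3_per rq_Q3_le Q3_sum tr_pair sq_case31 sq_case32 rq Dft_two Dft_fac QP QP_per rq_QP_le QP_sum)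

namespace Pool.Agent.Results.MP_e7655a_nt.NextZeroWords

/-- There is a sequence `b` with `b(n) = 0` which satisfies the recursion of the problem,
`b(k) = |b(k-1) - gcd(b(k-1), k ^ p - 1)|`, for `k > n`, and whose next zero `n' > n` satisfies `n' > (n + 1) ^ p + n - H`. -/
def Late (p H n : ℕ) : Prop := ∃ b : ℕ → ℤ, ∃ n' : ℕ,
  (∀ k : ℕ, n < k → b k = |b (k - 1) - ((Int.gcd (b (k - 1)) ((k : ℤ) ^ p - 1) : ℕ) : ℤ)|) ∧
  b n = 0 ∧ n < n' ∧ b n' = 0 ∧ (∀ k : ℕ, n < k → k < n' → b k ≠ 0) ∧ (n + 1) ^ p + n < n' + H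

/-- both values are prime -/
def Bp (m e : ℕ) : Prop := ((m : ℤ) ^ 2 + 3 * m + 2 - e).toNat.Prime ∧ ((m : ℤ) ^ 2 + 3 * m + 4 - e).toNat.Prime

open Classical in
/-- the part of the theorem for all `p` -/
theorem part1 (b : ℕ) (q : ℕ → ℕ → ℝ) (hq : Words b q) (κ : ℕ) (hκ : 1 ≤ κ) (p : ℕ) (hp : p.Prime) (H : ℕ) :
    ∃ C : ℝ, 0 < C ∧ ∀ k : ℕ, 1 ≤ k → ∀ w : ℕ → ℝ, WordLaw b q k w → ∀ c : ℕ,
      ∑ v ∈ range (b ^ k), (if 1 ≤ c + κ * v ∧ Late p H (c + κ * v) then w v else 0) ≤ C / k := by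
  obtain ⟨L, T, hcls⟩ := Pool.Agent.Run7.h672.XC.word_rcls hq
  have hone : ∀ h : ℕ, ∃ D : ℝ, 0 < D ∧ ∃ k₀ : ℕ, ∀ k : ℕ, k₀ ≤ k → ∀ w : ℕ → ℝ, WordLaw b q k w → ∀ c : ℤ,
      ∀ E : Finset ℕ, (∀ v ∈ E, v < b ^ k ∧ ∀ r : ℕ, r.Prime → (r : ℝ) ≤ Real.exp (Real.sqrt k) → ¬ QP p h r (c + (κ : ℤ) * v)) →
      ∑ v ∈ E, w v ≤ D / k := by
    intro h
    obtain ⟨d, _, hd⟩ := rq_QP_le p h hp
    obtain ⟨C₁, hC₁, hQ⟩ := QP_sum p h hp
    obtain ⟨C, η, hC, hη, k1, h1⟩ := law_gen hcls d 1 κ hκ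
    refine ⟨C * (Real.exp C₁ / η ^ 2) + 1, by positivity, max k1 1, fun k hk w hw c E hE => ?_⟩
    have hk0 : (0 : ℝ) < k := by exact_mod_cast (by omega : 0 < k)
    obtain ⟨s, hs⟩ : ∃ s, s = Real.sqrt k := ⟨_, rfl⟩
    have hss : s * s = k := by rw [hs]; exact Real.mul_self_sqrt hk0.le
    have hs0 : 0 < s := by rw [hs]; exact Real.sqrt_pos.2 hk0
    obtain ⟨y, hy3, hly, h1'⟩ := h1 k (by omega)
    rw [← hs] at hly
    have h4 := h1' w hw (QP p h) (QP_per p h) hd c E hE
    have h6 := hQ y hy3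
    have hly0 : 0 < η * s := by positivity
    have hly1 : 0 < Real.log y := hly0.trans_le hly
    have h7 : Real.exp (-∑ r ∈ Pool.Agent.H373R2.T7.pz y, (rq (QP p h) r : ℝ) / r) ≤ Real.exp C₁ / η ^ 2 / k := by
      have e1 : Real.exp (-∑ r ∈ Pool.Agent.H373R2.T7.pz y, (rq (QP p h) r : ℝ) / r) ≤
          Real.exp (-(2 * Real.log (Real.log y)) + C₁) := by
        apply Real.exp_le_exp.2
        linarith
      refine e1.trans ?_
      have e2 : Real.exp (-(2 * Real.log (Real.log y)) + C₁) = (Real.log y ^ 2)⁻¹ * Real.exp C₁ := by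
        rw [Real.exp_add, Real.exp_neg]
        congr 2
        have : 2 * Real.log (Real.log y) = Real.log (Real.log y ^ 2) := by
          rw [Real.log_pow]; norm_num
        rw [this, Real.exp_log (by positivity)]
      rw [e2]
      have e3 : (Real.log y ^ 2)⁻¹ ≤ ((η * s) ^ 2)⁻¹ := by
        apply inv_anti₀ (by positivity)
        exact pow_le_pow_left₀ hly0.le hly 2
      calc (Real.log y ^ 2)⁻¹ * Real.exp C₁ ≤ ((η * s) ^ 2)⁻¹ * Real.exp C₁ :=
            mul_le_mul_of_nonneg_right e3 (by positivity)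
        _ = _ := by
            rw [mul_pow, ← hss]
            field_simp
    rw [pow_one] at h4
    calc ∑ v ∈ E, w v ≤ C * (Real.exp C₁ / η ^ 2 / k) + 1 / k := h4.trans (add_le_add (mul_le_mul_of_nonneg_left h7 hC.le) le_rfl)
      _ = _ := by ring
  choose D hD k1 hk1 using hone
  obtain ⟨k2, h2⟩ := word_small hq κ hκ 0
  obtain ⟨k3, h3⟩ := ev_exp 0 (3 * H + 8) (by positivity)
  obtain ⟨k₀, hk₀⟩ : ∃ k₀, k₀ = (∑ h ∈ range H, k1 h) + k2 + k3 := ⟨_, rfl⟩
  have hDs : 0 ≤ ∑ h ∈ range H, D h := sum_nonneg fun h _ => (hD h).le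
  refine ⟨∑ h ∈ range H, D h + 1 + k₀, by positivity, fun k hk w hw c => ?_⟩
  have hk0 : (0 : ℝ) < k := by exact_mod_cast (by omega : 0 < k)
  have hw0 : ∀ v, 0 ≤ w v := law_nonneg hq hw
  have htot : ∑ v ∈ range (b ^ k), (if 1 ≤ c + κ * v ∧ Late p H (c + κ * v) then w v else 0) ≤ 1 := by
    rw [← law_sum hw]
    apply sum_le_sum
    intro v _
    split_ifs
    · exact le_rfl
    · exact hw0 v
  have hk₀0 : (0 : ℝ) ≤ k₀ := Nat.cast_nonneg _
  by_cases hbig : k < k₀
  · refine htot.trans ?_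
    rw [le_div_iff₀ hk0, one_mul]
    have e1 : (k : ℝ) ≤ k₀ := by exact_mod_cast hbig.le
    linarith
  push Not at hbig
  obtain ⟨s, hs⟩ : ∃ s, s = Real.sqrt k := ⟨_, rfl⟩
  obtain ⟨g1, _⟩ := h3 k (by omega)
  rw [← hs, pow_zero, mul_one] at g1
  obtain ⟨Es, hEs⟩ : ∃ Es, Es = (range (b ^ k)).filter (fun v => 1 ≤ c + κ * v ∧ ((c + κ * v : ℕ) : ℝ) ≤ 2 * Real.exp s) := ⟨_, rfl⟩
  obtain ⟨Eh, hEh⟩ : ∃ Eh : ℕ → Finset ℕ, Eh = fun e : ℕ => (range (b ^ k)).filter (fun v : ℕ =>
      ∀ r : ℕ, r.Prime → (r : ℝ) ≤ Real.exp (Real.sqrt k) → ¬ QP p e r ((c : ℤ) + (κ : ℤ) * v)) := ⟨_, rfl⟩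
  have hpt : ∀ v ∈ range (b ^ k), (if 1 ≤ c + κ * v ∧ Late p H (c + κ * v) then w v else 0) ≤
      (if v ∈ Es then w v else 0) + ∑ e ∈ range H, (if v ∈ Eh e then w v else 0) := by
    intro v hv
    have hn1 : ∀ h, (0 : ℝ) ≤ if v ∈ Eh h then w v else 0 := by
      intro h
      split_ifs
      · exact hw0 v
      · exact le_rfl
    have hn2 : (0 : ℝ) ≤ ∑ h ∈ range H, (if v ∈ Eh h then w v else 0) := sum_nonneg fun h _ => hn1 h
    have hn3 : (0 : ℝ) ≤ if v ∈ Es then w v else 0 := by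
      split_ifs
      · exact hw0 v
      · exact le_rfl
    by_cases hc : 1 ≤ c + κ * v ∧ Late p H (c + κ * v)
    · rw [if_pos hc]
      obtain ⟨c1, c2⟩ := hc
      by_cases hsm : ((c + κ * v : ℕ) : ℝ) ≤ 2 * Real.exp s
      · have : v ∈ Es := by
          rw [hEs, mem_filter]
          exact ⟨hv, c1, hsm⟩
        rw [if_pos this]
        linarith
      · push Not at hsm
        have hex := Real.exp_pos s
        have h8 : 3 * H + 8 ≤ c + κ * v := by
          have : (3 : ℝ) * H + 8 ≤ ((c + κ * v : ℕ) : ℝ) := by linarith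
          exact_mod_cast this
        obtain ⟨e, he, hr⟩ := Dft_fac p hp H (c + κ * v) h8 c2
        have hmem : v ∈ Eh e := by
          rw [hEh]
          simp only
          rw [mem_filter]
          refine ⟨hv, fun r hrp hre => ?_⟩
          rw [← hs] at hre
          have h9 : r ≤ c + κ * v := by
            have : (r : ℝ) ≤ ((c + κ * v : ℕ) : ℝ) := by linarith
            exact_mod_cast this
          have h10 := hr r hrp h9
          push_cast at h10
          exact h10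
        have hsg : w v ≤ ∑ h ∈ range H, (if v ∈ Eh h then w v else 0) := by
          refine le_trans (le_of_eq ?_) (single_le_sum (fun h _ => hn1 h) (mem_range.2 he))
          rw [if_pos hmem]
        linarith
    · rw [if_neg hc]
      linarith
  have hsum := sum_le_sum hpt
  rw [sum_add_distrib, sum_comm] at hsum
  have hS : ∑ v ∈ range (b ^ k), (if v ∈ Es then w v else 0) ≤ 1 / k := by
    rw [sum_ite_mem]
    refine (h2 k (by omega) w hw c (range (b ^ k) ∩ Es) (fun v hv => ?_)).trans (le_of_eq ?_)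
    · obtain ⟨q1, q2⟩ := mem_inter.1 hv
      rw [hEs, mem_filter] at q2
      rw [← hs]
      exact ⟨mem_range.1 q1, q2.2⟩
    · rw [zero_add, pow_one]
  have hh : ∀ e ∈ range H, ∑ v ∈ range (b ^ k), (if v ∈ Eh e then w v else 0) ≤ D e / k := by
    intro e he
    rw [sum_ite_mem]
    have hke : k1 e ≤ ∑ h ∈ range H, k1 h := single_le_sum (fun _ _ => Nat.zero_le _) he
    apply hk1 e k (by omega) w hw c
    intro v hv
    obtain ⟨q1, q2⟩ := mem_inter.1 hv
    rw [hEh] at q2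
    simp only at q2
    rw [mem_filter] at q2
    exact ⟨mem_range.1 q1, q2.2⟩
  have hS2 := sum_le_sum hh
  rw [← sum_div] at hS2
  have h7 : (∑ h ∈ range H, D h + 1 + k₀) / (k : ℝ) = (∑ h ∈ range H, D h) / k + 1 / k + k₀ / k := by ring
  have h8 : 0 ≤ (k₀ : ℝ) / k := by positivity
  rw [h7]
  linarith

open Classical in
/-- the part of the theorem for `p = 2` -/
theorem part2 (b : ℕ) (q : ℕ → ℕ → ℝ) (hq : Words b q) (κ : ℕ) (hκ : 1 ≤ κ) (ε : ℝ) (hε : 0 < ε) :
    ∃ C : ℝ, 0 < C ∧ ∀ k : ℕ, 1 ≤ k → ∀ p : ℕ → ℝ, WordLaw b q k p → ∀ c H : ℕ, 1 ≤ H →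
      ∑ v ∈ range (b ^ k), (if 1 ≤ c + κ * v ∧ Late 2 H (c + κ * v) then p v else 0) ≤
        C * (H : ℝ) ^ (1 + ε) / k := by
  obtain ⟨L, T, hcls⟩ := Pool.Agent.Run7.h672.XC.word_rcls hq
  obtain ⟨C, η, hC, hη, k1, h1⟩ := law_gen hcls 4 1 κ hκ
  obtain ⟨C₁, hC₁, hQ⟩ := Q3_sum ε hε
  obtain ⟨k2, h2⟩ := word_small hq κ hκ 0
  obtain ⟨k3, h3⟩ := ev_exp 3 2300 (by norm_num)
  obtain ⟨k₀, hk₀⟩ : ∃ k₀, k₀ = max (max k1 k2) k3 := ⟨_, rfl⟩
  obtain ⟨D, hD⟩ : ∃ D, D = C * Real.exp C₁ / η ^ 2 := ⟨_, rfl⟩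
  have hD0 : 0 < D := by rw [hD]; positivity
  refine ⟨D + 2 + k₀, by positivity, fun k hk p hp c H hH => ?_⟩
  have hk0 : (0 : ℝ) < k := by exact_mod_cast (by omega : 0 < k)
  have hk1 : (1 : ℝ) ≤ k := by exact_mod_cast hk
  obtain ⟨s, hs⟩ : ∃ s, s = Real.sqrt k := ⟨_, rfl⟩
  have hss : s * s = k := by rw [hs]; exact Real.mul_self_sqrt hk0.le
  have hs1 : 1 ≤ s := by rw [hs]; exact Real.one_le_sqrt.2 hk1
  have hs0 : 0 < s := by linarith
  have hp0 : ∀ v, 0 ≤ p v := law_nonneg hq hp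
  have hH1 : (1 : ℝ) ≤ H := by exact_mod_cast hH
  have hHε : (H : ℝ) ^ (1 + ε) = H * (H : ℝ) ^ ε := by
    rw [Real.rpow_add (by linarith), Real.rpow_one]
  have hHε1 : 1 ≤ (H : ℝ) ^ ε := Real.one_le_rpow hH1 hε.le
  have hHH : (H : ℝ) ≤ (H : ℝ) ^ (1 + ε) := by rw [hHε]; nlinarith
  have hH11 : 1 ≤ (H : ℝ) ^ (1 + ε) := hH1.trans hHH
  have htot : ∑ v ∈ range (b ^ k), (if 1 ≤ c + κ * v ∧ Late 2 H (c + κ * v) then p v else 0) ≤ 1 := by
    rw [← law_sum hp]
    apply sum_le_sum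
    intro v _
    split_ifs
    · exact le_rfl
    · exact hp0 v
  have hk₀0 : (0 : ℝ) ≤ k₀ := Nat.cast_nonneg _
  by_cases hbig : k < k₀
  · refine htot.trans ?_
    rw [le_div_iff₀ hk0, one_mul]
    have e1 : (k : ℝ) ≤ k₀ := by exact_mod_cast hbig.le
    nlinarith
  push Not at hbig
  by_cases hts : k < H
  · refine htot.trans ?_
    rw [le_div_iff₀ hk0, one_mul]
    have e1 : (k : ℝ) ≤ H := by exact_mod_cast hts.le
    nlinarith
  push Not at hts
  have hHs : (H : ℝ) ≤ s * s := by rw [hss]; exact_mod_cast hts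
  obtain ⟨g1, g2⟩ := h3 k (by omega)
  rw [← hs] at g1 g2
  have hs23 : s * s ≤ s ^ 3 := by
    have : s ^ 3 = s * s * s := by ring
    nlinarith
  have h13 : 1 ≤ s ^ 3 := one_le_pow₀ hs1
  obtain ⟨y, hy3, hly, h1'⟩ := h1 k (by omega)
  rw [← hs] at hly
  obtain ⟨Es, hEs⟩ : ∃ Es, Es = (range (b ^ k)).filter (fun v => 1 ≤ c + κ * v ∧ ((c + κ * v : ℕ) : ℝ) ≤ 2 * Real.exp s) := ⟨_, rfl⟩
  obtain ⟨Eh, hEh⟩ : ∃ Eh : ℕ → Finset ℕ, Eh = fun e : ℕ => (range (b ^ k)).filter (fun v : ℕ =>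
      2 * Real.exp s < ((c + κ * v : ℕ) : ℝ) ∧ Bp (c + κ * v) e) := ⟨_, rfl⟩
  have hlarge : ∀ m : ℕ, 2 * Real.exp s < (m : ℝ) → ∀ e : ℕ, e ≤ H → e + 8 ≤ m := by
    intro m hm e he
    have her : (e : ℝ) ≤ H := by exact_mod_cast he
    have : (e : ℝ) + 8 ≤ m := by linarith
    exact_mod_cast this
  have hpt : ∀ v ∈ range (b ^ k), (if 1 ≤ c + κ * v ∧ Late 2 H (c + κ * v) then p v else 0) ≤
      (if v ∈ Es then p v else 0) + ∑ e ∈ Icc 1 H, (if v ∈ Eh e then p v else 0) := by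
    intro v hv
    have hn1 : ∀ h, (0 : ℝ) ≤ if v ∈ Eh h then p v else 0 := by
      intro h
      split_ifs
      · exact hp0 v
      · exact le_rfl
    have hn2 : (0 : ℝ) ≤ ∑ h ∈ Icc 1 H, (if v ∈ Eh h then p v else 0) := sum_nonneg fun h _ => hn1 h
    have hn3 : (0 : ℝ) ≤ if v ∈ Es then p v else 0 := by
      split_ifs
      · exact hp0 v
      · exact le_rfl
    by_cases hc : 1 ≤ c + κ * v ∧ Late 2 H (c + κ * v)
    · rw [if_pos hc]
      obtain ⟨c1, c2⟩ := hc
      by_cases hsm : ((c + κ * v : ℕ) : ℝ) ≤ 2 * Real.exp s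
      · have : v ∈ Es := by
          rw [hEs, mem_filter]
          exact ⟨hv, c1, hsm⟩
        rw [if_pos this]
        linarith
      · push Not at hsm
        obtain ⟨e, he1, he2, he3, he4⟩ := tr_pair (c + κ * v) H (hlarge _ hsm H le_rfl) (Dft_two H _ c2)
        have hmem : v ∈ Eh e := by
          rw [hEh]
          simp only
          rw [mem_filter]
          exact ⟨hv, hsm, he3, he4⟩
        have hsg : p v ≤ ∑ h ∈ Icc 1 H, (if v ∈ Eh h then p v else 0) := by
          refine le_trans (le_of_eq ?_) (single_le_sum (fun h _ => hn1 h) (mem_Icc.2 ⟨he1, he2⟩))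
          rw [if_pos hmem]
        linarith
    · rw [if_neg hc]
      linarith
  have hsum := sum_le_sum hpt
  rw [sum_add_distrib, sum_comm] at hsum
  have hS : ∑ v ∈ range (b ^ k), (if v ∈ Es then p v else 0) ≤ 1 / k := by
    rw [sum_ite_mem]
    refine (h2 k (by omega) p hp c (range (b ^ k) ∩ Es) (fun v hv => ?_)).trans (le_of_eq ?_)
    · obtain ⟨q1, q2⟩ := mem_inter.1 hv
      rw [hEs, mem_filter] at q2
      rw [← hs]
      exact ⟨mem_range.1 q1, q2.2⟩
    · rw [zero_add, pow_one]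
  have hh : ∀ e ∈ Icc 1 H, ∑ v ∈ range (b ^ k), (if v ∈ Eh e then p v else 0) ≤ (D + 1) * (H : ℝ) ^ ε / k := by
    intro e he
    rw [mem_Icc] at he
    have her : (1 : ℝ) ≤ e := by exact_mod_cast he.1
    have heH : (e : ℝ) ≤ H := by exact_mod_cast he.2
    rw [sum_ite_mem]
    have hmem : ∀ v ∈ range (b ^ k) ∩ Eh e, v < b ^ k ∧ 2 * Real.exp s < ((c + κ * v : ℕ) : ℝ) ∧ Bp (c + κ * v) e := by
      intro v hv
      obtain ⟨q1, q2⟩ := mem_inter.1 hv
      rw [hEh] at q2
      simp only at q2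
      rw [mem_filter] at q2
      exact ⟨mem_range.1 q1, q2.2⟩
    by_cases hsq : IsSquare (4 * (e : ℤ) + 1) ∨ IsSquare (4 * (e : ℤ) - 7)
    · have hempty : range (b ^ k) ∩ Eh e = ∅ := by
        rw [eq_empty_iff_forall_notMem]
        intro v hv
        obtain ⟨_, r2, r3, r4⟩ := hmem v hv
        have r5 := hlarge _ r2 e he.2
        have r6 : ((c + κ * v : ℕ) : ℤ) ≤ (e : ℤ) := by
          rcases hsq with h | h
          · exact sq_case31 e _ (by exact_mod_cast he.1) h (by omega) r3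
          · exact sq_case32 e _ (by exact_mod_cast he.1) h (by omega) r4
        omega
      rw [hempty, sum_empty]
      positivity
    · push Not at hsq
      have h4 := h1' p hp (Q3 e) (Q3_per e) (rq_Q3_le e) c (range (b ^ k) ∩ Eh e) (by
        intro v hv
        obtain ⟨r1, r2, r3, r4⟩ := hmem v hv
        refine ⟨r1, fun q hqp hqe hQ2 => ?_⟩
        rw [← hs] at hqe
        have ecast : (c : ℤ) + (κ : ℤ) * v = ((c + κ * v : ℕ) : ℤ) := by push_cast; ring
        rw [ecast] at hQ2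
        have hval : ∀ w : ℤ, w.toNat.Prime → (q : ℤ) ∣ w → (w : ℝ) ≤ Real.exp s := by
          intro w hw hpw
          have e2 := hw.two_le
          have e3 : (w.toNat : ℤ) = w := Int.toNat_of_nonneg (by omega)
          have e4 : q ∣ w.toNat := by
            rw [← Int.natCast_dvd_natCast, e3]
            exact hpw
          have e5 := (Nat.prime_dvd_prime_iff_eq hqp hw).1 e4
          have e6 : (w : ℝ) = q := by
            rw [e5]
            exact_mod_cast e3.symm
          rw [e6]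
          exact hqe
        obtain ⟨m, hm⟩ : ∃ m, m = c + κ * v := ⟨_, rfl⟩
        rw [← hm] at r2 r3 r4 hQ2
        have r5 := hlarge m r2 e he.2
        have r5r : (e : ℝ) + 8 ≤ m := by exact_mod_cast r5
        have r6 : (m : ℝ) ≤ (m : ℝ) ^ 2 + 3 * m + 2 - e := by
          have : (8 : ℝ) ≤ m := by linarith
          nlinarith
        have hex := Real.exp_pos s
        rcases hQ2 with hQ2 | hQ2
        · have r7 := hval _ r3 hQ2
          push_cast at r7
          linarith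
        · have r7 := hval _ r4 hQ2
          push_cast at r7
          linarith)
      have h6 := hQ e he.1 hsq.1 hsq.2 y hy3
      have hly0 : 0 < η * s := by positivity
      have hly1 : 0 < Real.log y := hly0.trans_le hly
      have heε : (e : ℝ) ^ ε ≤ (H : ℝ) ^ ε := Real.rpow_le_rpow (by linarith) heH hε.le
      have h7 : Real.exp (-∑ p ∈ Pool.Agent.H373R2.T7.pz y, (rq (Q3 e) p : ℝ) / p) ≤ Real.exp C₁ / η ^ 2 * (e : ℝ) ^ ε / k := by
        have e1 : Real.exp (-∑ p ∈ Pool.Agent.H373R2.T7.pz y, (rq (Q3 e) p : ℝ) / p) ≤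
            Real.exp (-(2 * Real.log (Real.log y)) + (ε * Real.log e + C₁)) := by
          apply Real.exp_le_exp.2
          linarith
        refine e1.trans ?_
        have e2 : Real.exp (-(2 * Real.log (Real.log y)) + (ε * Real.log e + C₁)) = (Real.log y ^ 2)⁻¹ * ((e : ℝ) ^ ε * Real.exp C₁) := by
          rw [Real.exp_add, Real.exp_add, Real.exp_neg]
          congr 2
          · have : 2 * Real.log (Real.log y) = Real.log (Real.log y ^ 2) := by
              rw [Real.log_pow]; norm_num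
            rw [this, Real.exp_log (by positivity)]
          · rw [Real.rpow_def_of_pos (by linarith)]
            congr 1
            ring
        rw [e2]
        have e3 : (Real.log y ^ 2)⁻¹ ≤ ((η * s) ^ 2)⁻¹ := by
          apply inv_anti₀ (by positivity)
          exact pow_le_pow_left₀ hly0.le hly 2
        calc (Real.log y ^ 2)⁻¹ * ((e : ℝ) ^ ε * Real.exp C₁) ≤ ((η * s) ^ 2)⁻¹ * ((e : ℝ) ^ ε * Real.exp C₁) :=
              mul_le_mul_of_nonneg_right e3 (by positivity)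
          _ = _ := by
              rw [mul_pow, ← hss]
              field_simp
      rw [pow_one] at h4
      calc ∑ v ∈ range (b ^ k) ∩ Eh e, p v ≤ C * (Real.exp C₁ / η ^ 2 * (e : ℝ) ^ ε / k) + 1 / k :=
            h4.trans (add_le_add (mul_le_mul_of_nonneg_left h7 hC.le) le_rfl)
        _ = (D * (e : ℝ) ^ ε + 1) / k := by
            rw [hD]
            ring
        _ ≤ (D + 1) * (H : ℝ) ^ ε / k := by
            apply div_le_div_of_nonneg_right _ hk0.le
            nlinarith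
  have hS2 := sum_le_sum hh
  rw [sum_const, Nat.card_Icc, Nat.add_sub_cancel, nsmul_eq_mul] at hS2
  have h5 : (H : ℝ) * ((D + 1) * (H : ℝ) ^ ε / k) = (D + 1) * (H : ℝ) ^ (1 + ε) / k := by
    rw [hHε]
    ring
  rw [h5] at hS2
  have h6 : 1 / (k : ℝ) ≤ (H : ℝ) ^ (1 + ε) / k := div_le_div_of_nonneg_right hH11 hk0.le
  have h7 : (D + 2 + k₀) * (H : ℝ) ^ (1 + ε) / k = (H : ℝ) ^ (1 + ε) / k + (D + 1) * (H : ℝ) ^ (1 + ε) / k +
      k₀ * (H : ℝ) ^ (1 + ε) / k := by ring
  have h8 : 0 ≤ k₀ * (H : ℝ) ^ (1 + ε) / k := by positivity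
  rw [h7]
  linarith

open Classical in
/-- Let `q` be the law of a random word in base `b` (`Words b q`: any language, finite or infinite, lengths with an
exponential moment and without a common divisor, and two words which do not commute), and `κ ≥ 1`. Let `v < b ^ k` be a random
integer whose `k` digits are written by independent random words with the law `q`, conditioned on the total length `k`, or cut
after `k` digits (`WordLaw b q k w`), and let `c ≥ 0` be ANY integer. For every prime `p` and every `H` there is `C` such that for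
all `k ≥ 1` the probability that `n = c + κ v` is at least `1` and that the next zero `n'` of the recursion after a zero at `n`
satisfies `n' > (n + 1) ^ p + n - H` (the maximal possible value is `(n + 1) ^ p + n`) is at most `C / k`. For `p = 2` and every
`ε > 0` there is `C` such that the bound `C H ^ (1 + ε) / k` holds for all `H ≥ 1` and `k ≥ 1`. -/
theorem result (b : ℕ) (q : ℕ → ℕ → ℝ) (hq : Words b q) (κ : ℕ) (hκ : 1 ≤ κ) :
    (∀ p : ℕ, p.Prime → ∀ H : ℕ, ∃ C : ℝ, 0 < C ∧ ∀ k : ℕ, 1 ≤ k → ∀ w : ℕ → ℝ, WordLaw b q k w → ∀ c : ℕ,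
      ∑ v ∈ range (b ^ k), (if 1 ≤ c + κ * v ∧ Late p H (c + κ * v) then w v else 0) ≤ C / k) ∧
    (∀ ε : ℝ, 0 < ε → ∃ C : ℝ, 0 < C ∧ ∀ k : ℕ, 1 ≤ k → ∀ w : ℕ → ℝ, WordLaw b q k w → ∀ c H : ℕ, 1 ≤ H →
      ∑ v ∈ range (b ^ k), (if 1 ≤ c + κ * v ∧ Late 2 H (c + κ * v) then w v else 0) ≤ C * (H : ℝ) ^ (1 + ε) / k) :=
  ⟨fun p hp H => part1 b q hq κ hκ p hp H, fun ε hε => part2 b q hq κ hκ ε hε⟩

end Pool.Agent.Results.MP_e7655a_nt.NextZeroWords
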