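import Pool.Agent.Run7.h844.RP.PwT6

/-!
# The gcd recursion with `n ^ p - 1`: the next zero after a zero at `n = ⌊g(q) + w⌋`, for almost all primes `q`

Method: exponential sums over primes with the phase of a generalised polynomial: derivative bounds uniform in the
coefficients, van der Corput differencing of all orders, bilinear sums, Vaughan's identity (after `Pool.Agent.H895R3.NK`,
`Pool.Agent.H373R2.T7`), with a power saving at all frequencies up to a power, and a discrete Fejér kernel for the passage to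
the integer parts (library `Pool.Agent.Run7.h844.RP`). Hence the integer parts are
equidistributed in the residue classes modulo all integers up to a power, and the fundamental lemma of the sieve
(`Pool.Agent.Run7.h90.AP`) with the theorem of Mertens for the roots of irreducible polynomials (`Pool.Agent.H474R2.GE`), for
`p = 2` with the theorem of Siegel and Walfisz, gives the bounds (see `NextZero`).
-/

set_option autoImplicit false

open Finset Filter

namespace Pool.Agent.Results.MP_e7655a_nt.ValuesAtPrimes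

/-- The generalised polynomial `∑ a x * t ^ x`, `x ∈ F`, with real exponents and coefficients. -/
noncomputable def genPoly (F : Finset ℝ) (a : ℝ → ℝ) (t : ℝ) : ℝ := ∑ x ∈ F, a x * t ^ x

/-- `c` is the largest exponent; it is positive and not an integer, and its coefficient is not zero. -/
def Leading (F : Finset ℝ) (a : ℝ → ℝ) (c : ℝ) : Prop :=
  c ∈ F ∧ (∀ x ∈ F, x ≤ c) ∧ 0 < c ∧ (∀ m : ℕ, c ≠ m) ∧ a c ≠ 0

/-- There is a sequence `b` with `b(n) = 0` which satisfies the recursion of the problem,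
`b(k) = |b(k-1) - gcd(b(k-1), k ^ p - 1)|`, for `k > n`, and whose next zero `n' > n` satisfies `n' > (n + 1) ^ p + n - H`. -/
def Late (p H n : ℕ) : Prop := ∃ b : ℕ → ℤ, ∃ n' : ℕ,
  (∀ k : ℕ, n < k → b k = |b (k - 1) - ((Int.gcd (b (k - 1)) ((k : ℤ) ^ p - 1) : ℕ) : ℤ)|) ∧
  b n = 0 ∧ n < n' ∧ b n' = 0 ∧ (∀ k : ℕ, n < k → k < n' → b k ≠ 0) ∧ (n + 1) ^ p + n < n' + H

open Classical in
/-- Let `g(t) = ∑ c x t ^ x` be a generalised polynomial (real exponents and coefficients) whose largest exponent `e` is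
positive and not an integer. (1) For every prime `p` and every `H` there are `C` and `X₀` such that for all `X ≥ X₀` and EVERY real
number `w` at most the proportion `C / log ² X` of the primes `q` with `X < q ≤ 2 X` have the property that `n = ⌊g(q) + w⌋ ≥ 1` and
the next zero `n'` of the recursion after a zero at `n` satisfies `n' > (n + 1) ^ p + n - H`. (2) For `p = 2` and every `ε > 0` there
are `C` and `X₀` such that the bound `C H ^ (1 + ε) / log ² X` holds for all `H ≥ 1`, all `X ≥ X₀` and all `w`. -/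
theorem result (F : Finset ℝ) (c : ℝ → ℝ) (e : ℝ) (hF : Leading F c e) :
    (∀ p : ℕ, p.Prime → ∀ H : ℕ, ∃ C : ℝ, 0 < C ∧ ∃ X₀ : ℕ, ∀ X : ℕ, X₀ ≤ X → ∀ w : ℝ,
      (((Ioc X (2 * X)).filter (fun q : ℕ => q.Prime ∧ 1 ≤ ⌊genPoly F c q + w⌋ ∧
        Late p H ⌊genPoly F c q + w⌋.toNat)).card : ℝ) ≤
        C * (((Ioc X (2 * X)).filter Nat.Prime).card / Real.log X ^ 2)) ∧
    (∀ ε : ℝ, 0 < ε → ∃ C : ℝ, 0 < C ∧ ∃ X₀ : ℕ, ∀ X : ℕ, X₀ ≤ X → ∀ w : ℝ, ∀ H : ℕ, 1 ≤ H →
      (((Ioc X (2 * X)).filter (fun q : ℕ => q.Prime ∧ 1 ≤ ⌊genPoly F c q + w⌋ ∧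
        Late 2 H ⌊genPoly F c q + w⌋.toNat)).card : ℝ) ≤
        C * (H : ℝ) ^ (1 + ε) * (((Ioc X (2 * X)).filter Nat.Prime).card / Real.log X ^ 2)) := by
  obtain ⟨hcF, hmax, hc, hn, hb⟩ := hF
  obtain ⟨β, hβ, hβ1, N₀, h1⟩ := Pool.Agent.Run7.h844.RP.primes_fam F e hcF hn hc hmax c hb
  have hset : ∀ (X : ℕ) (w : ℝ) (P : ℕ → Prop), (Ioc X (2 * X)).filter (fun q : ℕ => q.Prime ∧ 1 ≤ ⌊genPoly F c q + w⌋ ∧
      P ⌊genPoly F c q + w⌋.toNat) =
      (Pool.Agent.Run7.h844.RP.PB X).filter (fun i => 0 < Pool.Agent.Run7.h844.RP.vz F c w i ∧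
        P (Pool.Agent.Run7.h844.RP.vz F c w i).toNat) := by
    intro X w P
    unfold Pool.Agent.Run7.h844.RP.PB
    rw [filter_filter]
    rfl
  constructor
  · intro p hp H
    obtain ⟨C, hC, T₀, h2⟩ := Pool.Agent.Run7.h844.RP.fam_p p hp H
    obtain ⟨X₁, hX₁⟩ := eventually_atTop.1 (((tendsto_rpow_atTop hβ).comp (tendsto_natCast_atTop_atTop (R := ℝ))).eventually_ge_atTop T₀)
    refine ⟨C / β ^ 2, by positivity, N₀ + X₁ + 2, fun X hX w => ?_⟩
    obtain ⟨-, h3⟩ := h1 X (by omega) w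
    have h4 := h2 ((X : ℝ) ^ β) (hX₁ X (by omega)) ℕ _ _ h3
    have hX0 : (0 : ℝ) < X := by exact_mod_cast (by omega : 0 < X)
    have hl : 0 < Real.log X := Real.log_pos (by exact_mod_cast (by omega : 1 < X))
    rw [Real.log_rpow hX0] at h4
    rw [hset X w (fun n => Late p H n)]
    refine h4.trans (le_of_eq ?_)
    have e1 : (β * Real.log X) ^ 2 = β ^ 2 * Real.log X ^ 2 := by ring
    have e2 : ((Ioc X (2 * X)).filter Nat.Prime).card = (Pool.Agent.Run7.h844.RP.PB X).card := rfl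
    rw [e1, e2]
    field_simp
  · intro ε hε
    obtain ⟨C, hC, T₀, h2⟩ := Pool.Agent.Run7.h844.RP.fam3 ε hε
    obtain ⟨X₁, hX₁⟩ := eventually_atTop.1 (((tendsto_rpow_atTop hβ).comp (tendsto_natCast_atTop_atTop (R := ℝ))).eventually_ge_atTop T₀)
    refine ⟨C / β ^ 2, by positivity, N₀ + X₁ + 2, fun X hX w H hH => ?_⟩
    obtain ⟨-, h3⟩ := h1 X (by omega) w
    have h4 := h2 ((X : ℝ) ^ β) (hX₁ X (by omega)) ℕ _ _ h3 H hH
    have hX0 : (0 : ℝ) < X := by exact_mod_cast (by omega : 0 < X)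
    have hl : 0 < Real.log X := Real.log_pos (by exact_mod_cast (by omega : 1 < X))
    rw [Real.log_rpow hX0] at h4
    rw [hset X w (fun n => Late 2 H n)]
    have h5 : (((Pool.Agent.Run7.h844.RP.PB X).filter (fun i => 0 < Pool.Agent.Run7.h844.RP.vz F c w i ∧
        Late 2 H (Pool.Agent.Run7.h844.RP.vz F c w i).toNat)).card : ℝ) ≤
        (((Pool.Agent.Run7.h844.RP.PB X).filter (fun i => 0 < Pool.Agent.Run7.h844.RP.vz F c w i ∧
        ((Pool.Agent.Run7.h844.RP.vz F c w i).toNat + 1) ^ 2 <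
          Pool.Agent.Run7.h844.RP.tr (Pool.Agent.Run7.h844.RP.vz F c w i).toNat + H)).card : ℝ) := by
      apply Nat.cast_le.2
      apply card_le_card
      intro i hi
      rw [mem_filter] at hi ⊢
      exact ⟨hi.1, hi.2.1, Pool.Agent.Run7.h844.RP.Dft_two H _ hi.2.2⟩
    refine (h5.trans h4).trans (le_of_eq ?_)
    have e1 : (β * Real.log X) ^ 2 = β ^ 2 * Real.log X ^ 2 := by ring
    have e2 : ((Ioc X (2 * X)).filter Nat.Prime).card = (Pool.Agent.Run7.h844.RP.PB X).card := rfl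
    rw [e1, e2]
    field_simp

end Pool.Agent.Results.MP_e7655a_nt.ValuesAtPrimes
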